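import Pool.Agent.L0h55.LT2.Den

/-!
# The parts S_DEN and S_ZER
-/

set_option autoImplicit false
set_option linter.unusedSectionVars false

namespace Pool.Agent.L0h55.LT2

open Finset Pool.Agent.L0h32.LT2

open Classical in
theorem dense_one {N : ℕ} {F X : Type} [Field F] [Fintype F] (S : Finset X)
    (a : X → Fin N → (Fin 6 → F)) (I : Finset (Fin N)) (h : Dense S a I) (j : Fin N) (hj : j ∉ I)
    (z : Fin 6 → F) :
    ((S.filter fun x => a x j = z).card : ℝ) ≤ S.card / (Fintype.card F : ℝ) ^ 5 := by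
  have hq : (0 : ℝ) < Fintype.card F := by exact_mod_cast Fintype.card_pos
  have h1 := h {j} (fun _ => z) (by simpa using hj)
  have e : (S.filter fun x => ∀ i ∈ ({j} : Finset (Fin N)), a x i = z) =
      S.filter fun x => a x j = z := by
    ext x
    simp
  rw [e, card_singleton, mul_one] at h1
  rw [le_div_iff₀ (by positivity)]
  exact_mod_cast h1

open Classical in
theorem dense_two {N : ℕ} {F X : Type} [Field F] [Fintype F] (S : Finset X)
    (a : X → Fin N → (Fin 6 → F)) (I : Finset (Fin N)) (h : Dense S a I) (j j' : Fin N)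
    (hjj : j ≠ j') (hj : j ∉ I) (hj' : j' ∉ I) (z z' : Fin 6 → F) :
    ((S.filter fun x => a x j = z ∧ a x j' = z').card : ℝ) ≤
      S.card / (Fintype.card F : ℝ) ^ 10 := by
  have hq : (0 : ℝ) < Fintype.card F := by exact_mod_cast Fintype.card_pos
  have h1 := h {j, j'} (fun i => if i = j then z else z') (by
    rw [Finset.disjoint_left]
    intro i hi
    rw [mem_insert, mem_singleton] at hi
    rcases hi with hi | hi
    · rw [hi]; exact hj
    · rw [hi]; exact hj')
  have e : (S.filter fun x => ∀ i ∈ ({j, j'} : Finset (Fin N)), a x i = if i = j then z else z') =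
      S.filter fun x => a x j = z ∧ a x j' = z' := by
    ext x
    simp only [mem_filter, mem_insert, mem_singleton, forall_eq_or_imp, forall_eq]
    rw [if_neg hjj.symm]
    simp
  rw [e, card_pair hjj] at h1
  rw [le_div_iff₀ (by positivity)]
  have : 5 * 2 = 10 := by norm_num
  rw [this] at h1
  exact_mod_cast h1

theorem t_DEN : S_DEN := by
  intro N F X Y _ _ _ S T a b I I' hN hq hI hI' hS hT
  classical
  obtain ⟨χ, hχ⟩ := exists_chr F
  set q : ℝ := (Fintype.card F : ℝ) with hqd
  have hqN : q = 4 * N := by rw [hqd, hq]; push_cast; ring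
  have hNr : (4 : ℝ) ≤ N := by exact_mod_cast hN
  have hq16 : 16 ≤ q := by rw [hqN]; linarith
  have hqp : 0 < q := by linarith
  set R := S ×ˢ T with hR
  set K : ℝ := (R.card : ℝ) with hK
  have hKc : K = (S.card : ℝ) * T.card := by rw [hK, hR, card_product]; push_cast; ring
  have hK0 : 0 ≤ K := Nat.cast_nonneg _
  set t : Fin N → X × Y → F := fun j p => qf (a p.1 j + b p.2 j) with ht
  set M := univ \ (I ∪ I') with hM
  have hMI : ∀ j ∈ M, j ∉ I ∧ j ∉ I' := by
    intro j hj
    rw [hM, mem_sdiff, mem_union] at hj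
    push Not at hj
    exact hj.2
  have hm1 : (M.card : ℝ) ≤ q / 4 := by
    have : M.card ≤ N := by
      have := card_le_univ M
      rwa [Fintype.card_fin] at this
    have : (M.card : ℝ) ≤ N := by exact_mod_cast this
    linarith
  have hm2 : q / 8 ≤ (M.card : ℝ) := by
    have h1 : N ≤ M.card + (I ∪ I').card := by
      have := Finset.card_sdiff_add_card (s := (univ : Finset (Fin N))) (t := I ∪ I')
      rw [← hM] at this
      have h2 := Finset.card_le_card (Finset.subset_union_left : (univ : Finset (Fin N)) ⊆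
        univ ∪ (I ∪ I'))
      rw [Finset.card_univ, Fintype.card_fin] at h2
      omega
    have h2 := Finset.card_union_le I I'
    have h3 : N ≤ 2 * M.card := by omega
    have h4 : (N : ℝ) ≤ 2 * M.card := by exact_mod_cast h3
    linarith
  have hE1 : ∀ j ∈ M, ∀ l : F, l ≠ 0 → |∑ p ∈ R, χ (l * t j p)| ≤ 1 / q ^ 2 * R.card := by
    intro j hj l hl
    refine one_block hχ S T (fun x => a x j) (fun y => b y j) (S.card / q ^ 5) (T.card / q ^ 5)
      (1 / q ^ 2) (by positivity) (fun z => dense_one S a I hS j (hMI j hj).1 z)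
      (fun z => dense_one T b I' hT j (hMI j hj).2 z) ?_ l hl
    rw [← hqd]
    refine le_of_eq ?_
    field_simp
  have hE2 : ∀ j ∈ M, ∀ j' ∈ M, j ≠ j' → ∀ l l' : F, l ≠ 0 → l' ≠ 0 →
      |∑ p ∈ R, χ (l * t j p) * χ (l' * t j' p)| ≤ (1 / q ^ 2) ^ 2 * R.card := by
    intro j hj j' hj' hjj l l' hl hl'
    refine two_blocks hχ S T (fun x => a x j) (fun x => a x j') (fun y => b y j)
      (fun y => b y j') (S.card / q ^ 10) (T.card / q ^ 10) ((1 / q ^ 2) ^ 2) (by positivity)
      (fun z z' => dense_two S a I hS j j' hjj (hMI j hj).1 (hMI j' hj').1 z z')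
      (fun z z' => dense_two T b I' hT j j' hjj (hMI j hj).2 (hMI j' hj').2 z z') ?_ l l' hl hl'
    rw [← hqd]
    refine le_of_eq ?_
    field_simp
  have hc1 := fun j hj => cnt1 hχ R (t j) (1 / q ^ 2) (hE1 j hj)
  have hc2 := fun j hj j' hj' hjj => cnt2 hχ R (t j) (t j') (1 / q ^ 2) (by positivity)
    (hE1 j hj) (hE1 j' hj') (hE2 j hj j' hj' hjj)
  rw [← hqd] at hc1 hc2
  -- simpler bounds
  have hδ : (q - 1) * (1 / q ^ 2) ≤ 1 / 16 := by
    rw [mul_one_div, div_le_div_iff₀ (by positivity) (by norm_num)]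
    nlinarith
  have hδ0 : 0 ≤ (q - 1) * (1 / q ^ 2) := by
    apply mul_nonneg (by linarith)
    positivity
  set u : Fin N → ℝ := fun j => ∑ p ∈ R, ind (t j p) with hu
  have b1 : ∀ j ∈ M, q * u j ≤ 17 / 16 * K := by
    intro j hj
    refine (hc1 j hj).1.trans ?_
    exact mul_le_mul_of_nonneg_right (by linarith) hK0
  have b2 : ∀ j ∈ M, 15 / 16 * K ≤ q * u j := by
    intro j hj
    refine le_trans ?_ (hc1 j hj).2
    exact mul_le_mul_of_nonneg_right (by linarith) hK0
  have b3 : ∀ j ∈ M, ∀ j' ∈ M, j ≠ j' →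
      q ^ 2 * ∑ p ∈ R, ind (t j p) * ind (t j' p) ≤ (17 / 16) ^ 2 * K := by
    intro j hj j' hj' hjj
    refine (hc2 j hj j' hj' hjj).trans ?_
    refine mul_le_mul_of_nonneg_right ?_ hK0
    exact pow_le_pow_left₀ (by linarith) (by linarith) 2
  -- first and second moments
  set A : ℝ := ∑ p ∈ R, ∑ j ∈ M, ind (t j p) with hA
  set B : ℝ := ∑ p ∈ R, (∑ j ∈ M, ind (t j p)) ^ 2 with hB
  set e : ℝ := (M.card : ℝ) / q with he
  have heq : e * q = M.card := by rw [he]; field_simp
  have he1 : 1 / 8 ≤ e := by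
    rw [he, le_div_iff₀ hqp]
    linarith
  have he2 : e ≤ 1 / 4 := by
    rw [he, div_le_iff₀ hqp]
    linarith
  have hA1 : e * K * (15 / 16) ≤ A := by
    have h1 : A = ∑ j ∈ M, u j := by
      rw [hA, Finset.sum_comm]
    have h2 : (M.card : ℝ) * (15 / 16 * K / q) ≤ ∑ j ∈ M, u j := by
      rw [← nsmul_eq_mul, ← Finset.sum_const]
      refine Finset.sum_le_sum fun j hj => ?_
      rw [div_le_iff₀ hqp]
      linarith [b2 j hj]
    rw [h1]
    refine le_trans (le_of_eq ?_) h2
    rw [he]
    ring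
  have hB1 : B ≤ e * K * (17 / 16) + e ^ 2 * K * (17 / 16) ^ 2 := by
    have h1 : B = ∑ j ∈ M, ∑ j' ∈ M, ∑ p ∈ R, ind (t j p) * ind (t j' p) := by
      rw [hB]
      have e1 : ∀ p, (∑ j ∈ M, ind (t j p)) ^ 2 =
          ∑ j ∈ M, ∑ j' ∈ M, ind (t j p) * ind (t j' p) := by
        intro p
        rw [sq, Finset.sum_mul_sum]
      rw [Finset.sum_congr rfl fun p _ => e1 p, Finset.sum_comm]
      refine Finset.sum_congr rfl fun j _ => ?_
      rw [Finset.sum_comm]
    have h2 : ∀ j ∈ M, ∀ j' ∈ M, ∑ p ∈ R, ind (t j p) * ind (t j' p) ≤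
        (if j = j' then 17 / 16 * K / q else 0) + (17 / 16) ^ 2 * K / q ^ 2 := by
      intro j hj j' hj'
      have hpos : 0 ≤ (17 / 16) ^ 2 * K / q ^ 2 := by positivity
      split_ifs with hjj
      · rw [← hjj]
        have e2 : ∑ p ∈ R, ind (t j p) * ind (t j p) = u j :=
          Finset.sum_congr rfl fun p _ => ind_sq _
        rw [e2]
        have : u j ≤ 17 / 16 * K / q := by
          rw [le_div_iff₀ hqp]
          linarith [b1 j hj]
        linarith
      · rw [zero_add, le_div_iff₀ (by positivity)]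
        linarith [b3 j hj j' hj' hjj]
    rw [h1]
    refine (Finset.sum_le_sum fun j hj => Finset.sum_le_sum fun j' hj' => h2 j hj j' hj').trans
      (le_of_eq ?_)
    have h3 : ∀ j ∈ M, ∑ j' ∈ M, ((if j = j' then 17 / 16 * K / q else 0) +
        (17 / 16) ^ 2 * K / q ^ 2) = 17 / 16 * K / q + M.card * ((17 / 16) ^ 2 * K / q ^ 2) := by
      intro j hj
      rw [Finset.sum_add_distrib, Finset.sum_ite_eq, if_pos hj, Finset.sum_const, nsmul_eq_mul]
    rw [Finset.sum_congr rfl h3, Finset.sum_const, nsmul_eq_mul, he]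
    field_simp
  set H : ℝ := ((hits S T a b).card : ℝ) with hH
  have hCS : A ^ 2 ≤ B * H := by
    have hsupp : ∀ p ∈ R, ∑ j ∈ M, ind (t j p) =
        (∑ j ∈ M, ind (t j p)) * (if p ∈ hits S T a b then 1 else 0) := by
      intro p hp
      split_ifs with hh
      · ring
      · rw [mul_zero]
        refine Finset.sum_eq_zero fun j _ => ?_
        unfold ind
        rw [if_neg]
        intro h0
        apply hh
        unfold hits
        rw [mem_filter]
        exact ⟨hp, j, h0⟩
    have hh : ∑ p ∈ R, (if p ∈ hits S T a b then (1 : ℝ) else 0) ^ 2 = H := by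
      have e1 : ∀ p ∈ R, (if p ∈ hits S T a b then (1 : ℝ) else 0) ^ 2 =
          if p ∈ hits S T a b then (1 : ℝ) else 0 := by
        intro p _
        split_ifs <;> norm_num
      rw [Finset.sum_congr rfl e1, Finset.sum_boole, hH]
      congr 2
      ext p
      rw [mem_filter]
      constructor
      · exact fun h => h.2
      · intro h
        refine ⟨?_, h⟩
        unfold hits at h
        exact (mem_filter.1 h).1
    rw [hA, Finset.sum_congr rfl hsupp, hB, ← hh]
    exact Finset.sum_mul_sq_le_sq_mul_sq R _ _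
  have hH0 : 0 ≤ H := Nat.cast_nonneg _
  have hfin : K ≤ 32 * H := by
    rcases hK0.eq_or_lt with h0 | h0
    · rw [← h0]; positivity
    · have hep : 0 < e * K := mul_pos (by linarith) h0
      have h1 : (e * K * (15 / 16)) ^ 2 ≤ A ^ 2 := pow_le_pow_left₀ (by positivity) hA1 2
      have h2 : B * H ≤ (e * K * (17 / 16) + e ^ 2 * K * (17 / 16) ^ 2) * H :=
        mul_le_mul_of_nonneg_right hB1 hH0
      have h3 : e * K * (e * K * (15 / 16) ^ 2) ≤
          e * K * ((17 / 16 + e * (17 / 16) ^ 2) * H) := by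
        calc e * K * (e * K * (15 / 16) ^ 2) = (e * K * (15 / 16)) ^ 2 := by ring
          _ ≤ _ := h1.trans (hCS.trans h2)
          _ = _ := by ring
      have h4 := le_of_mul_le_mul_left h3 hep
      have h5 : (17 / 16 + e * (17 / 16) ^ 2) * H ≤ (17 / 16 + 1 / 4 * (17 / 16) ^ 2) * H := by
        refine mul_le_mul_of_nonneg_right ?_ hH0
        nlinarith
      have h6 : 1 / 8 * K * (15 / 16) ^ 2 ≤ e * K * (15 / 16) ^ 2 := by
        refine mul_le_mul_of_nonneg_right ?_ (by norm_num)
        exact mul_le_mul_of_nonneg_right he1 h0.le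
      linarith
  rw [hKc, hH] at hfin
  exact_mod_cast hfin

theorem t_ZER : S_ZER := by
  intro N s F X Y _ _ _ _ _ a b hq hs hSa hSb
  classical
  obtain ⟨χ, hχ⟩ := exists_chr F
  set q : ℝ := (Fintype.card F : ℝ) with hqd
  have hqN : q = 4 * N := by rw [hqd, hq]; push_cast; ring
  have hqp : 0 < q := by rw [hqd]; exact_mod_cast Fintype.card_pos
  have hq1 : 1 ≤ q := by
    rw [hqd]; exact_mod_cast Fintype.card_pos
  have hs' : (2 : ℝ) ^ s ≤ q := by
    rw [hqd]; exact_mod_cast hs
  set S : Finset X := univ with hS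
  set T : Finset Y := univ with hT
  set R := S ×ˢ T with hR
  set K : ℝ := (R.card : ℝ) with hK
  have hKc : K = (Fintype.card X : ℝ) * Fintype.card Y := by
    rw [hK, hR, card_product, hS, hT, card_univ, card_univ]; push_cast; ring
  have hK0 : 0 ≤ K := Nat.cast_nonneg _
  set t : Fin N → X × Y → F := fun j p => qf (a p.1 j + b p.2 j) with ht
  have gen : ∀ {Z : Type} [Fintype Z] (c : Z → Fin N → (Fin 6 → F)), Spread s c → ∀ j z,
      (((univ : Finset Z).filter fun x => c x j = z).card : ℝ) ≤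
        2 ^ s * (univ : Finset Z).card / q ^ 6 := by
    intro Z _ c hc j z
    have h1 := hc {j} (fun _ => z)
    have e : ((univ : Finset Z).filter fun x => ∀ i ∈ ({j} : Finset (Fin N)), c x i = z) =
        univ.filter fun x => c x j = z := by
      ext x
      simp
    rw [e, card_singleton, mul_one] at h1
    rw [le_div_iff₀ (by positivity), card_univ, hqd]
    exact_mod_cast h1
  have hE : ∀ j, ∀ l : F, l ≠ 0 → |∑ p ∈ R, χ (l * t j p)| ≤ 1 / q ^ 2 * R.card := by
    intro j l hl
    refine one_block hχ S T (fun x => a x j) (fun y => b y j) (2 ^ s * S.card / q ^ 6)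
      (2 ^ s * T.card / q ^ 6) (1 / q ^ 2) (by positivity) (fun z => gen a hSa j z)
      (fun z => gen b hSb j z) ?_ l hl
    rw [← hqd]
    have h1 : ((2 : ℝ) ^ s) ^ 2 ≤ q ^ 2 := pow_le_pow_left₀ (by positivity) hs' 2
    have e1 : q ^ 6 * (2 ^ s * (S.card : ℝ) / q ^ 6 * S.card) * (2 ^ s * (T.card : ℝ) / q ^ 6 * T.card) =
        (2 ^ s) ^ 2 * ((S.card : ℝ) * T.card) ^ 2 / q ^ 6 := by
      field_simp
    have e2 : (1 / q ^ 2 * ((S.card : ℝ) * T.card)) ^ 2 =
        q ^ 2 * ((S.card : ℝ) * T.card) ^ 2 / q ^ 6 := by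
      field_simp
    rw [e1, e2]
    refine div_le_div_of_nonneg_right ?_ (by positivity)
    exact mul_le_mul_of_nonneg_right h1 (sq_nonneg _)
  have hc1 := fun j => (cnt1 hχ R (t j) (1 / q ^ 2) (hE j)).1
  rw [← hqd] at hc1
  have hδ : (q - 1) * (1 / q ^ 2) ≤ 1 := by
    rw [mul_one_div, div_le_one (by positivity)]
    nlinarith
  have b1 : ∀ j, ∑ p ∈ R, ind (t j p) ≤ 2 * K / q := by
    intro j
    rw [le_div_iff₀ hqp]
    have := hc1 j
    have h2 : (1 + (q - 1) * (1 / q ^ 2)) * (R.card : ℝ) ≤ 2 * K :=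
      mul_le_mul_of_nonneg_right (by linarith) hK0
    linarith
  have hH : ((hits S T a b).card : ℝ) ≤ ∑ j : Fin N, ∑ p ∈ R, ind (t j p) := by
    rw [Finset.sum_comm]
    have h1 : ((hits S T a b).card : ℝ) = ∑ p ∈ hits S T a b, (1 : ℝ) := by simp
    rw [h1]
    have hsub : hits S T a b ⊆ R := by
      unfold hits
      exact filter_subset _ _
    refine (Finset.sum_le_sum fun p hp => ?_).trans
      (Finset.sum_le_sum_of_subset_of_nonneg hsub fun p _ _ =>
        Finset.sum_nonneg fun j _ => ind_nonneg _)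
    unfold hits at hp
    obtain ⟨_, j, hj⟩ := mem_filter.1 hp
    have h2 : ind (t j p) = 1 := by
      unfold ind
      rw [if_pos]
      exact hj
    rw [← h2]
    exact Finset.single_le_sum (f := fun j => ind (t j p)) (fun j _ => ind_nonneg _) (mem_univ j)
  have h3 : ∑ j : Fin N, ∑ p ∈ R, ind (t j p) ≤ N * (2 * K / q) := by
    refine (Finset.sum_le_sum fun j _ => b1 j).trans (le_of_eq ?_)
    rw [Finset.sum_const, nsmul_eq_mul, card_univ, Fintype.card_fin]
  have h4 : (N : ℝ) * (2 * K / q) = K / 2 := by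
    have : (N : ℝ) = q / 4 := by linarith
    rw [this]
    field_simp
    ring
  have h5 : 2 * ((hits S T a b).card : ℝ) ≤ K := by linarith
  rw [hKc] at h5
  exact_mod_cast h5

end Pool.Agent.L0h55.LT2
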