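import Pool.Agent.L0h32.LT2.Stm

/-!
# Characters and the Lindsey inequality
-/

set_option autoImplicit false
set_option linter.unusedSectionVars false

namespace Pool.Agent.L0h55.LT2

open Finset Pool.Agent.L0h32.LT2

/-- A quadratic character function with an orthogonal kernel. -/
structure KerP {W : Type} [AddCommGroup W] [Fintype W] [DecidableEq W] (Φ : W → ℝ) (K : W → W → ℝ) : Prop where
  sq : ∀ u, Φ u ^ 2 = 1
  add : ∀ u v, Φ (u + v) = Φ u * Φ v * K u v
  orth : ∀ u u', ∑ v, K u v * K u' v = if u = u' then (Fintype.card W : ℝ) else 0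

section
variable {W : Type} [AddCommGroup W] [Fintype W] [DecidableEq W]

theorem lindsey {K : W → W → ℝ}
    (ho : ∀ u u', ∑ v, K u v * K u' v = if u = u' then (Fintype.card W : ℝ) else 0)
    (p r : W → ℝ) :
    (∑ u, ∑ v, p u * r v * K u v) ^ 2 ≤ (Fintype.card W : ℝ) * (∑ u, p u ^ 2) * ∑ v, r v ^ 2 := by
  have h1 : ∑ u, ∑ v, p u * r v * K u v = ∑ v, (∑ u, p u * K u v) * r v := by
    rw [Finset.sum_comm]
    refine Finset.sum_congr rfl fun v _ => ?_
    rw [Finset.sum_mul]
    refine Finset.sum_congr rfl fun u _ => ?_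
    ring
  have h2 : ∑ v, (∑ u, p u * K u v) ^ 2 = (Fintype.card W : ℝ) * ∑ u, p u ^ 2 := by
    have h3 : ∀ v, (∑ u, p u * K u v) ^ 2 = ∑ u, ∑ u', p u * p u' * (K u v * K u' v) := by
      intro v
      rw [sq, Finset.sum_mul_sum]
      refine Finset.sum_congr rfl fun u _ => Finset.sum_congr rfl fun u' _ => ?_
      ring
    rw [Finset.sum_congr rfl fun v _ => h3 v, Finset.sum_comm, Finset.mul_sum]
    refine Finset.sum_congr rfl fun u _ => ?_
    rw [Finset.sum_comm]
    have h4 : ∀ u', ∑ v, p u * p u' * (K u v * K u' v) =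
        if u = u' then (Fintype.card W : ℝ) * p u ^ 2 else 0 := by
      intro u'
      rw [← Finset.mul_sum, ho]
      split_ifs with h
      · rw [h]; ring
      · ring
    rw [Finset.sum_congr rfl fun u' _ => h4 u', Finset.sum_ite_eq]
    simp
  rw [h1]
  refine (Finset.sum_mul_sq_le_sq_mul_sq univ _ _).trans (le_of_eq ?_)
  rw [h2]

/-- The bound for character sums over rectangles. -/
theorem rect {X Y : Type} {Φ : W → ℝ} {K : W → W → ℝ} (hK : KerP Φ K) (S : Finset X) (T : Finset Y)
    (a : X → W) (b : Y → W) (α β : ℝ)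
    (ha : ∀ z, ((S.filter fun x => a x = z).card : ℝ) ≤ α)
    (hb : ∀ z, ((T.filter fun y => b y = z).card : ℝ) ≤ β) :
    (∑ x ∈ S, ∑ y ∈ T, Φ (a x + b y)) ^ 2 ≤
      (Fintype.card W : ℝ) * (α * S.card) * (β * T.card) := by
  have gen : ∀ {Z : Type} (R : Finset Z) (c : Z → W) (γ : ℝ)
      (hc : ∀ z, ((R.filter fun x => c x = z).card : ℝ) ≤ γ),
      ∑ u, (((R.filter fun x => c x = u).card : ℝ) * Φ u) ^ 2 ≤ γ * R.card := by
    intro Z R c γ hc
    have e : ∀ u, (((R.filter fun x => c x = u).card : ℝ) * Φ u) ^ 2 =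
        ((R.filter fun x => c x = u).card : ℝ) * ((R.filter fun x => c x = u).card : ℝ) := by
      intro u
      rw [mul_pow, hK.sq, mul_one, sq]
    rw [Finset.sum_congr rfl fun u _ => e u]
    have h1 : ∑ u, ((R.filter fun x => c x = u).card : ℝ) *
        ((R.filter fun x => c x = u).card : ℝ) ≤
        ∑ u, γ * ((R.filter fun x => c x = u).card : ℝ) :=
      Finset.sum_le_sum fun u _ => mul_le_mul_of_nonneg_right (hc u) (Nat.cast_nonneg _)
    refine h1.trans (le_of_eq ?_)
    rw [← Finset.mul_sum]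
    congr 1
    rw [Finset.card_eq_sum_card_fiberwise (f := c) (t := univ) (fun x _ => by simp)]
    push_cast
    rfl
  have hsum : ∀ {Z : Type} (R : Finset Z) (c : Z → W) (h : W → ℝ),
      ∑ x ∈ R, h (c x) = ∑ u, ((R.filter fun x => c x = u).card : ℝ) * h u := by
    intro Z R c h
    rw [← Finset.sum_fiberwise_of_maps_to (s := R) (t := univ) (g := c) (fun x _ => mem_univ _)]
    refine Finset.sum_congr rfl fun u _ => ?_
    rw [Finset.sum_congr rfl (g := fun _ => h u)]
    · rw [Finset.sum_const, nsmul_eq_mul]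
    · intro x hx
      rw [(mem_filter.1 hx).2]
  have h1 : ∑ x ∈ S, ∑ y ∈ T, Φ (a x + b y) =
      ∑ u, ∑ v, (((S.filter fun x => a x = u).card : ℝ) * Φ u) *
        (((T.filter fun y => b y = v).card : ℝ) * Φ v) * K u v := by
    rw [hsum S a (fun u => ∑ y ∈ T, Φ (u + b y))]
    refine Finset.sum_congr rfl fun u _ => ?_
    rw [hsum T b (fun v => Φ (u + v)), Finset.mul_sum]
    refine Finset.sum_congr rfl fun v _ => ?_
    rw [hK.add]
    ring
  rw [h1]
  refine (lindsey hK.orth _ _).trans ?_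
  have g1 := gen S a α ha
  have g2 := gen T b β hb
  have g0 : 0 ≤ ∑ u, (((S.filter fun x => a x = u).card : ℝ) * Φ u) ^ 2 :=
    Finset.sum_nonneg fun _ _ => sq_nonneg _
  have g0' : 0 ≤ ∑ u, (((T.filter fun x => b x = u).card : ℝ) * Φ u) ^ 2 :=
    Finset.sum_nonneg fun _ _ => sq_nonneg _
  refine mul_le_mul (mul_le_mul_of_nonneg_left g1 (Nat.cast_nonneg _)) g2 g0' ?_
  exact mul_nonneg (Nat.cast_nonneg _) (g0.trans g1)

/-- Product of two kernels. -/
theorem KerP.prod {Φ Φ' : W → ℝ} {K K' : W → W → ℝ} (h : KerP Φ K) (h' : KerP Φ' K') :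
    KerP (fun u : W × W => Φ u.1 * Φ' u.2) (fun u v => K u.1 v.1 * K' u.2 v.2) where
  sq := by
    intro u
    rw [mul_pow, h.sq, h'.sq, mul_one]
  add := by
    intro u v
    simp only [Prod.fst_add, Prod.snd_add]
    rw [h.add, h'.add]
    ring
  orth := by
    intro u u'
    have e : ∑ v : W × W, K u.1 v.1 * K' u.2 v.2 * (K u'.1 v.1 * K' u'.2 v.2) =
        (∑ v, K u.1 v * K u'.1 v) * ∑ v, K' u.2 v * K' u'.2 v := by
      rw [Finset.sum_mul_sum, Fintype.sum_prod_type]
      refine Finset.sum_congr rfl fun v _ => Finset.sum_congr rfl fun v' _ => ?_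
      ring
    rw [e, h.orth, h'.orth]
    by_cases h1 : u.1 = u'.1
    · by_cases h2 : u.2 = u'.2
      · rw [if_pos h1, if_pos h2, if_pos (Prod.ext h1 h2)]
        rw [Fintype.card_prod]
        push_cast
        ring
      · have hne : ¬ u = u' := fun h3 => h2 (congrArg Prod.snd h3)
        rw [if_neg h2, if_neg hne, mul_zero]
    · have hne : ¬ u = u' := fun h3 => h1 (congrArg Prod.fst h3)
      rw [if_neg h1, if_neg hne, zero_mul]

end

section
variable {F : Type} [Field F] [Fintype F]

/-- An additive character with real values. -/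
structure IsChr (χ : F → ℝ) : Prop where
  sq : ∀ y, χ y ^ 2 = 1
  add : ∀ x y, χ (x + y) = χ x * χ y
  ex : ∃ y, χ y = -1

theorem exists_chr (F : Type) [Field F] [Fintype F] [CharP F 2] : ∃ χ : F → ℝ, IsChr χ := by
  let _ : Algebra (ZMod 2) F := ZMod.algebra F 2
  obtain ⟨φ, hφ⟩ : ∃ φ : Module.Dual (ZMod 2) F, φ 1 ≠ 0 := by
    by_contra hc
    push Not at hc
    exact one_ne_zero ((Module.forall_dual_apply_eq_zero_iff (ZMod 2) (1 : F)).1 hc)
  have key : ∀ z : ZMod 2, z = 0 ∨ z = 1 := by decide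
  refine ⟨fun y => if φ y = 0 then 1 else -1, ⟨fun y => ?_, fun x y => ?_, ⟨1, ?_⟩⟩⟩
  · split_ifs <;> norm_num
  · simp only [map_add]
    rcases key (φ x) with h | h <;> rcases key (φ y) with h' | h' <;> rw [h, h']
    · simp
    · simp
    · simp
    · have : (1 : ZMod 2) + 1 = 0 := by decide
      rw [this]
      simp
  · rw [if_neg hφ]

theorem IsChr.zero {χ : F → ℝ} (h : IsChr χ) : χ 0 = 1 := by
  have h1 := h.add 0 0
  rw [add_zero] at h1
  have h2 := h.sq 0
  nlinarith [h2, h1]

/-- The sum of a character with a translation at which it is `-1` is zero. -/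
theorem sum_zero {W : Type} [AddCommGroup W] [Fintype W] (g : W → ℝ) (v0 : W)
    (h : ∀ v, g (v + v0) = - g v) : ∑ v, g v = 0 := by
  have h1 : ∑ v, g (v + v0) = ∑ v, g v :=
    Fintype.sum_equiv (Equiv.addRight v0) _ _ (fun v => rfl)
  rw [Finset.sum_congr rfl fun v _ => h v, Finset.sum_neg_distrib] at h1
  linarith

theorem IsChr.sum_mul {χ : F → ℝ} (h : IsChr χ) (y : F) [DecidableEq F] :
    ∑ l, χ (l * y) = if y = 0 then (Fintype.card F : ℝ) else 0 := by
  split_ifs with hy
  · rw [hy]
    simp [h.zero]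
  · obtain ⟨z, hz⟩ := h.ex
    refine sum_zero _ (z / y) fun v => ?_
    rw [add_mul, h.add, div_mul_cancel₀ _ hy, hz]
    ring

/-- The polar form. -/
def bf (u v : Fin 6 → F) : F :=
  u 0 * v 3 + v 0 * u 3 + (u 1 * v 4 + v 1 * u 4) + (u 2 * v 5 + v 2 * u 5)

theorem qf_add (u v : Fin 6 → F) : qf (u + v) = qf u + qf v + bf u v := by
  unfold qf bf
  simp only [Pi.add_apply]
  ring

theorem bf_add_right (u v w : Fin 6 → F) : bf u (v + w) = bf u v + bf u w := by
  unfold bf
  simp only [Pi.add_apply]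
  ring

theorem bf_add_left (u v w : Fin 6 → F) : bf (u + v) w = bf u w + bf v w := by
  unfold bf
  simp only [Pi.add_apply]
  ring

theorem bf_surj (u : Fin 6 → F) (hu : u ≠ 0) (z : F) : ∃ v, bf u v = z := by
  obtain ⟨i, hi⟩ : ∃ i, u i ≠ 0 := by
    by_contra hc
    push Not at hc
    exact hu (funext hc)
  fin_cases i
  · refine ⟨fun k => if k = 3 then z / u 0 else 0, ?_⟩
    simp only [Fin.zero_eta] at hi
    unfold bf
    simp
    field_simp
  · refine ⟨fun k => if k = 4 then z / u 1 else 0, ?_⟩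
    simp only [Fin.mk_one] at hi
    unfold bf
    simp
    field_simp
  · refine ⟨fun k => if k = 5 then z / u 2 else 0, ?_⟩
    simp only [Fin.reduceFinMk] at hi
    unfold bf
    simp
    field_simp
  · refine ⟨fun k => if k = 0 then z / u 3 else 0, ?_⟩
    simp only [Fin.reduceFinMk] at hi
    unfold bf
    simp
    field_simp
  · refine ⟨fun k => if k = 1 then z / u 4 else 0, ?_⟩
    simp only [Fin.reduceFinMk] at hi
    unfold bf
    simp
    field_simp
  · refine ⟨fun k => if k = 2 then z / u 5 else 0, ?_⟩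
    simp only [Fin.reduceFinMk] at hi
    unfold bf
    simp
    field_simp

/-- The kernel of the quadratic form. -/
theorem kerP_qf [DecidableEq F] [CharP F 2] {χ : F → ℝ} (h : IsChr χ) (l : F) (hl : l ≠ 0) :
    KerP (fun u : Fin 6 → F => χ (l * qf u)) (fun u v => χ (l * bf u v)) where
  sq := fun u => h.sq _
  add := by
    intro u v
    rw [qf_add, mul_add, mul_add, h.add, h.add]
  orth := by
    intro u u'
    have e : ∀ v, χ (l * bf u v) * χ (l * bf u' v) = χ (l * bf (u + u') v) := by
      intro v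
      rw [bf_add_left, mul_add, h.add]
    rw [Finset.sum_congr rfl fun v _ => e v]
    split_ifs with huu
    · have h0 : u + u' = 0 := by
        rw [huu]
        funext i
        simp only [Pi.add_apply, Pi.zero_apply]
        exact CharTwo.add_self_eq_zero _
      have : ∀ v : Fin 6 → F, χ (l * bf (u + u') v) = 1 := by
        intro v
        rw [h0]
        have : bf (0 : Fin 6 → F) v = 0 := by
          unfold bf; simp
        rw [this, mul_zero, h.zero]
      rw [Finset.sum_congr rfl fun v _ => this v]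
      simp
    · have hne : u + u' ≠ 0 := by
        intro h0
        apply huu
        funext i
        have := congrFun h0 i
        simp only [Pi.add_apply, Pi.zero_apply] at this
        exact CharTwo.add_eq_zero.1 this
      obtain ⟨z, hz⟩ := h.ex
      obtain ⟨v0, hv0⟩ := bf_surj (u + u') hne (z / l)
      refine sum_zero _ v0 fun v => ?_
      rw [bf_add_right, mul_add, h.add, hv0, mul_div_cancel₀ _ hl, hz]
      ring

end

end Pool.Agent.L0h55.LT2
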