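import Pool.Agent.L0h55.LT2.Chr

/-!
# Dense rectangles and uniform inputs
-/

set_option autoImplicit false
set_option linter.unusedSectionVars false

namespace Pool.Agent.L0h55.LT2

open Finset Pool.Agent.L0h32.LT2

section
variable {F : Type} [Field F] [Fintype F] [DecidableEq F]

/-- The weight of a frequency. -/
noncomputable def bnd (ε : ℝ) (l : F) : ℝ := if l = 0 then 1 else ε

theorem bnd_sum (ε : ℝ) : ∑ l : F, bnd ε l = 1 + ((Fintype.card F : ℝ) - 1) * ε := by
  unfold bnd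
  have h : ∀ l : F, (if l = 0 then (1 : ℝ) else ε) = ε + (if l = 0 then 1 - ε else 0) := by
    intro l
    split_ifs <;> ring
  rw [Finset.sum_congr rfl fun l _ => h l, Finset.sum_add_distrib, Finset.sum_ite_eq']
  simp
  ring

theorem bnd_nonneg {ε : ℝ} (h : 0 ≤ ε) (l : F) : 0 ≤ bnd ε l := by
  unfold bnd
  split_ifs
  · norm_num
  · exact h

/-- The indicator of the zeros. -/
noncomputable def ind (y : F) : ℝ := if y = 0 then 1 else 0

theorem ind_eq {χ : F → ℝ} (h : IsChr χ) (y : F) :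
    (Fintype.card F : ℝ) * ind y = ∑ l, χ (l * y) := by
  rw [h.sum_mul]
  unfold ind
  split_ifs <;> ring

theorem ind_sq (y : F) : ind y * ind y = ind y := by
  unfold ind
  split_ifs <;> ring

theorem ind_nonneg (y : F) : 0 ≤ ind y := by
  unfold ind
  split_ifs <;> norm_num

/-- Counting with one form. -/
theorem cnt1 {P : Type} {χ : F → ℝ} (h : IsChr χ) (R : Finset P) (t : P → F) (ε : ℝ)
    (hE : ∀ l : F, l ≠ 0 → |∑ p ∈ R, χ (l * t p)| ≤ ε * R.card) :
    (Fintype.card F : ℝ) * ∑ p ∈ R, ind (t p) ≤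
      (1 + ((Fintype.card F : ℝ) - 1) * ε) * R.card ∧
    (1 - ((Fintype.card F : ℝ) - 1) * ε) * R.card ≤
      (Fintype.card F : ℝ) * ∑ p ∈ R, ind (t p) := by
  have h1 : (Fintype.card F : ℝ) * ∑ p ∈ R, ind (t p) = ∑ l, ∑ p ∈ R, χ (l * t p) := by
    rw [Finset.mul_sum, Finset.sum_comm]
    exact Finset.sum_congr rfl fun p _ => ind_eq h _
  have h0 : ∑ p ∈ R, χ (0 * t p) = R.card := by
    simp [h.zero]
  have hs : ∑ l, ∑ p ∈ R, χ (l * t p) =
      ∑ l ∈ univ.erase (0 : F), ∑ p ∈ R, χ (l * t p) + R.card := by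
    rw [← Finset.sum_erase_add _ _ (mem_univ (0 : F)), h0]
  have hb : |∑ l ∈ univ.erase (0 : F), ∑ p ∈ R, χ (l * t p)| ≤
      ((Fintype.card F : ℝ) - 1) * (ε * R.card) := by
    refine (Finset.abs_sum_le_sum_abs _ _).trans ?_
    refine (Finset.sum_le_sum fun l hl => hE l (Finset.ne_of_mem_erase hl)).trans ?_
    rw [Finset.sum_const, nsmul_eq_mul, Finset.card_erase_of_mem (mem_univ _), Finset.card_univ,
      Nat.cast_sub Fintype.card_pos]
    simp
  rw [h1, hs]
  rw [abs_le] at hb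
  constructor <;> nlinarith [hb.1, hb.2]

/-- Counting with two forms. -/
theorem cnt2 {P : Type} {χ : F → ℝ} (h : IsChr χ) (R : Finset P) (t t' : P → F) (ε : ℝ)
    (hε : 0 ≤ ε)
    (hE : ∀ l : F, l ≠ 0 → |∑ p ∈ R, χ (l * t p)| ≤ ε * R.card)
    (hE' : ∀ l : F, l ≠ 0 → |∑ p ∈ R, χ (l * t' p)| ≤ ε * R.card)
    (hE2 : ∀ l l' : F, l ≠ 0 → l' ≠ 0 → |∑ p ∈ R, χ (l * t p) * χ (l' * t' p)| ≤
      ε ^ 2 * R.card) :
    (Fintype.card F : ℝ) ^ 2 * ∑ p ∈ R, ind (t p) * ind (t' p) ≤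
      (1 + ((Fintype.card F : ℝ) - 1) * ε) ^ 2 * R.card := by
  have h1 : (Fintype.card F : ℝ) ^ 2 * ∑ p ∈ R, ind (t p) * ind (t' p) =
      ∑ l, ∑ l', ∑ p ∈ R, χ (l * t p) * χ (l' * t' p) := by
    have e1 : ∀ l : F, ∑ l', ∑ p ∈ R, χ (l * t p) * χ (l' * t' p) =
        ∑ p ∈ R, χ (l * t p) * ((Fintype.card F : ℝ) * ind (t' p)) := by
      intro l
      rw [Finset.sum_comm]
      refine Finset.sum_congr rfl fun p _ => ?_
      rw [← Finset.mul_sum, ind_eq h]
    rw [Finset.sum_congr rfl fun l _ => e1 l, Finset.sum_comm, Finset.mul_sum]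
    refine Finset.sum_congr rfl fun p _ => ?_
    rw [← Finset.sum_mul, ← ind_eq h]
    ring
  have h2 : ∀ l l' : F, ∑ p ∈ R, χ (l * t p) * χ (l' * t' p) ≤ bnd ε l * bnd ε l' * R.card := by
    intro l l'
    unfold bnd
    by_cases hl : l = 0
    · by_cases hl' : l' = 0
      · rw [if_pos hl, if_pos hl', hl, hl']
        simp [h.zero]
      · rw [if_pos hl, if_neg hl', hl]
        have := (abs_le.1 (hE' l' hl')).2
        simpa [h.zero] using this
    · by_cases hl' : l' = 0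
      · rw [if_neg hl, if_pos hl', hl']
        have := (abs_le.1 (hE l hl)).2
        simpa [h.zero] using this
      · rw [if_neg hl, if_neg hl']
        have := (abs_le.1 (hE2 l l' hl hl')).2
        rw [sq] at this
        exact this
  rw [h1]
  refine (Finset.sum_le_sum fun l _ => Finset.sum_le_sum fun l' _ => h2 l l').trans
    (le_of_eq ?_)
  rw [← bnd_sum, sq, Finset.sum_mul_sum, Finset.sum_mul]
  refine Finset.sum_congr rfl fun l _ => ?_
  rw [Finset.sum_mul]

/-- The character sums for one block. -/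
theorem one_block [CharP F 2] {χ : F → ℝ} (h : IsChr χ) {X Y : Type} (S : Finset X) (T : Finset Y)
    (a : X → (Fin 6 → F)) (b : Y → (Fin 6 → F)) (α β ε : ℝ) (hε : 0 ≤ ε)
    (ha : ∀ z, ((S.filter fun x => a x = z).card : ℝ) ≤ α)
    (hb : ∀ z, ((T.filter fun y => b y = z).card : ℝ) ≤ β)
    (hle : (Fintype.card F : ℝ) ^ 6 * (α * S.card) * (β * T.card) ≤ (ε * (S.card * T.card)) ^ 2)
    (l : F) (hl : l ≠ 0) :
    |∑ p ∈ S ×ˢ T, χ (l * qf (a p.1 + b p.2))| ≤ ε * (S ×ˢ T).card := by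
  have h1 := rect (kerP_qf h l hl) S T a b α β ha hb
  rw [Finset.sum_product, Finset.card_product]
  push_cast
  have h2 : (Fintype.card (Fin 6 → F) : ℝ) = (Fintype.card F : ℝ) ^ 6 := by
    rw [Fintype.card_fun, Fintype.card_fin]
    push_cast
    rfl
  rw [h2] at h1
  refine abs_le_of_sq_le_sq (h1.trans hle) ?_
  positivity

/-- The character sums for two blocks. -/
theorem two_blocks [CharP F 2] {χ : F → ℝ} (h : IsChr χ) {X Y : Type} (S : Finset X) (T : Finset Y)
    (a a' : X → (Fin 6 → F)) (b b' : Y → (Fin 6 → F)) (α β ε : ℝ) (hε : 0 ≤ ε)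
    (ha : ∀ z z', ((S.filter fun x => a x = z ∧ a' x = z').card : ℝ) ≤ α)
    (hb : ∀ z z', ((T.filter fun y => b y = z ∧ b' y = z').card : ℝ) ≤ β)
    (hle : (Fintype.card F : ℝ) ^ 12 * (α * S.card) * (β * T.card) ≤ (ε * (S.card * T.card)) ^ 2)
    (l l' : F) (hl : l ≠ 0) (hl' : l' ≠ 0) :
    |∑ p ∈ S ×ˢ T, χ (l * qf (a p.1 + b p.2)) * χ (l' * qf (a' p.1 + b' p.2))| ≤
      ε * (S ×ˢ T).card := by
  have h1 := rect ((kerP_qf h l hl).prod (kerP_qf h l' hl')) S T (fun x => (a x, a' x))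
    (fun y => (b y, b' y)) α β
    (fun z => by
      have := ha z.1 z.2
      have e : (S.filter fun x => (a x, a' x) = z) = S.filter fun x => a x = z.1 ∧ a' x = z.2 := by
        ext x
        simp only [mem_filter, Prod.ext_iff]
      rw [e]
      exact this)
    (fun z => by
      have := hb z.1 z.2
      have e : (T.filter fun x => (b x, b' x) = z) = T.filter fun x => b x = z.1 ∧ b' x = z.2 := by
        ext x
        simp only [mem_filter, Prod.ext_iff]
      rw [e]
      exact this)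
  rw [Finset.sum_product, Finset.card_product]
  push_cast
  have h2 : (Fintype.card ((Fin 6 → F) × (Fin 6 → F)) : ℝ) = (Fintype.card F : ℝ) ^ 12 := by
    rw [Fintype.card_prod, Fintype.card_fun, Fintype.card_fin]
    push_cast
    ring
  rw [h2] at h1
  refine abs_le_of_sq_le_sq (h1.trans hle) ?_
  positivity

end

end Pool.Agent.L0h55.LT2
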